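import Pool.Agent.Helper667.ElemGroup

/-!
# Statements for the project AC
-/

set_option autoImplicit false

namespace Pool.Agent.Y208.AC

open Pool.Agent.Helper667.ElemGroup

/-- The groups of elementary matrices are residually finite over reduced rings. -/
def S_RF : Prop := ∀ {A : Type} [CommRing A] [IsReduced A] (L : Set (A × A)), L.Finite →
  ∀ g : Gr L, g ≠ 1 → ∃ (F : Type) (_ : Group F) (_ : Finite F) (f : Gr L →* F), f g ≠ 1

end Pool.Agent.Y208.AC
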