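import Pool.Agent.Y208.AC.Red

/-!
# Failure in all ranks
-/

set_option autoImplicit false
set_option linter.unusedSimpArgs false
set_option linter.unusedSectionVars false
set_option linter.unusedVariables false

namespace Pool.Agent.Y208.AC

open Pool.Agent.Helper667.ElemGroup
open Pool.Agent.Results.MP_71c9ee_al.GenACFails (NormGen dG ACMove ACEquiv)

/-- Every nontrivial element survives in a finite quotient. -/
def ResFin (G : Type) [Group G] : Prop :=
  ∀ g : G, g ≠ 1 → ∃ (F : Type) (_ : Group F) (_ : Finite F) (f : G →* F), f g ≠ 1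

/-- The generalised Andrews-Curtis property fails for `k`-tuples of `G`. -/
def FailsAt (G : Type) [Group G] (k : ℕ) : Prop :=
  max (dG G) 2 ≤ k ∧ ∃ U V : Fin k → G, NormGen U ∧ NormGen V ∧
    ACEquiv (fun l => Abelianization.of (U l)) (fun l => Abelianization.of (V l)) ∧
    ¬ ACEquiv U V

/-- The members of the family `V` generate `G` as a normal subgroup, have AC-equivalent images in
the abelianization, are pairwise not AC-equivalent, and are not AC-equivalent to a tuple one of
whose entries is trivial. -/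
def Classes {G : Type} [Group G] {ι : Type} {k : ℕ} (V : ι → Fin k → G) : Prop :=
  (∀ i, NormGen (V i)) ∧
  (∀ i j, ACEquiv (fun l => Abelianization.of (V i l)) (fun l => Abelianization.of (V j l))) ∧
  (∀ i j, i ≠ j → ¬ ACEquiv (V i) (V j)) ∧
  ∀ i (U : Fin k → G), ACEquiv (V i) U → ∀ l, U l ≠ 1

/-- the number of blocks -/
def kk {C : Type} (q : ℕ × C) : ℕ := q.1 + 2

theorem kk_pos {C : Type} {P : Type} (f : P → ℕ × C) (p : P) : 0 < kk (f p) := by
  unfold kk; omega

/-- Everything for one rank. -/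
theorem rank {C P : Type} [DecidableEq P] (f : P → ℕ × C) (m : ℕ) (e : C → P)
    (he : Function.Injective e) (hf : ∀ c, f (e c) = (m, c)) (c₀ : C) :
    FailsAt (Gr (LL fun p => kk (f p))) (m + 2) ∧
      ∃ V : C → Fin (m + 2) → Gr (LL fun p => kk (f p)), Classes V := by
  have hκ := kk_pos f
  have hk : ∀ c, kk (f (e c)) = m + 2 := fun c => by rw [hf c]; rfl
  have key : ∀ c, ∃ V : Fin (m + 2) → Gr (LL fun p => kk (f p)), NormGen V ∧
      (∀ p, p ≠ e c → Ext p V) ∧ (¬ Ext (e c) V) ∧
      ∀ (U : Fin (m + 2) → Gr (LL fun p => kk (f p))), ACEquiv V U → ∀ l, U l ≠ 1 := by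
    intro c
    have h1 : ∀ n, n = kk (f (e c)) → ∃ V : Fin n → Gr (LL fun p => kk (f p)), NormGen V ∧
        (∀ p, p ≠ e c → Ext p V) ∧ (¬ Ext (e c) V) ∧
        ∀ (U : Fin n → Gr (LL fun p => kk (f p))), ACEquiv V U → ∀ l, U l ≠ 1 := by
      rintro _ rfl
      exact ⟨Vp hκ (e c), normGen_Vp hκ _, fun p hp => ext_other hκ hp, not_ext hκ _,
        fun U hU l => Vp_ne_one hκ _ U hU l⟩
    exact h1 _ (hk c).symm
  choose V hV1 hV2 hV3 hV4 using key
  refine ⟨⟨?_, Us _ m, V c₀, normGen_Us hκ m, hV1 c₀, ab_equiv hκ _ _, ?_⟩, V, hV1,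
    fun i j => ab_equiv hκ _ _, ?_, hV4⟩
  · rw [dG_one hκ]
    omega
  · intro h
    exact hV4 c₀ _ (equiv_symm h) 1 (Us_one m)
  · intro i j hij h
    exact hV3 i (ext_equiv hκ (e i) (equiv_symm h) (hV2 j (e i) fun h' => hij (he h')))

end Pool.Agent.Y208.AC
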