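import Pool.Agent.Y208.AC.Sph
import Pool.Agent.Results.MP_71c9ee_al.GenACFails

/-!
# The obstruction: tuples which extend to the ball without becoming central
-/

set_option autoImplicit false
set_option linter.unusedSimpArgs false
set_option linter.unusedSectionVars false
set_option linter.unusedVariables false

namespace Pool.Agent.Y208.AC

open Matrix Metric Pool.Agent.Helper667.SLTwo Pool.Agent.Helper667.ElemGroup
open scoped RealInnerProductSpace
open Pool.Agent.Results.MP_71c9ee_al.GenACFails (NormGen dG ACMove ACEquiv move_mem map_move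
  value_bound)

noncomputable section

variable {P : Type} [DecidableEq P] {κ : P → ℕ}

variable (κ) in
/-- matrices of functions that are smooth at every point of the closed ball -/
def Smo (p : P) : Subgroup (SpecialLinearGroup (Fin 2) (EE κ p → ℝ)) where
  carrier := {g | ∀ x ∈ closedBall (0 : EE κ p) 1, ∀ i j, ContDiffAt ℝ 1 (g i j) x}
  mul_mem' := by
    intro g h hg hh x hx i j
    have : (g * h) i j = fun y => ∑ l, g i l y * h l j y := by
      funext y
      simp [Matrix.mul_apply]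
    rw [this]
    exact ContDiffAt.sum (fun l _ => (hg x hx i l).mul (hh x hx l j))
  one_mem' := by
    intro x _ i j
    by_cases h : i = j
    · subst h
      have : ((1 : SpecialLinearGroup (Fin 2) (EE κ p → ℝ)) i i) = fun _ => (1 : ℝ) := by
        funext y; simp
      rw [this]; exact contDiffAt_const
    · have : ((1 : SpecialLinearGroup (Fin 2) (EE κ p → ℝ)) i j) = fun _ => (0 : ℝ) := by
        funext y; simp [Matrix.one_apply_ne h]
      rw [this]; exact contDiffAt_const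
  inv_mem' := by
    intro g hg x hx i j
    fin_cases i <;> fin_cases j
    · change ContDiffAt ℝ 1 ((g⁻¹) 0 0) x
      rw [inv_00]; exact hg x hx 1 1
    · change ContDiffAt ℝ 1 ((g⁻¹) 0 1) x
      rw [inv_01]; exact (hg x hx 0 1).neg
    · change ContDiffAt ℝ 1 ((g⁻¹) 1 0) x
      rw [inv_10]; exact (hg x hx 1 0).neg
    · change ContDiffAt ℝ 1 ((g⁻¹) 1 1) x
      rw [inv_11]; exact hg x hx 0 0

theorem E12_Smo {p : P} {f : EE κ p → ℝ}
    (hf : ∀ x ∈ closedBall (0 : EE κ p) 1, ContDiffAt ℝ 1 f x) : E12 f ∈ Smo κ p := by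
  intro x hx i j
  fin_cases i <;> fin_cases j
  · exact contDiffAt_const
  · exact hf x hx
  · exact contDiffAt_const
  · exact contDiffAt_const

theorem E21_Smo {p : P} {f : EE κ p → ℝ}
    (hf : ∀ x ∈ closedBall (0 : EE κ p) 1, ContDiffAt ℝ 1 f x) : E21 f ∈ Smo κ p := by
  intro x hx i j
  fin_cases i <;> fin_cases j
  · exact contDiffAt_const
  · exact contDiffAt_const
  · exact hf x hx
  · exact contDiffAt_const

variable (κ) in
/-- restriction of functions of one component -/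
def rho1 (p : P) : (EE κ p → ℝ) →+* (SS κ p → ℝ) where
  toFun f s := f s.1
  map_one' := rfl
  map_zero' := rfl
  map_add' _ _ := rfl
  map_mul' _ _ := rfl

variable (κ) in
/-- restriction to the sphere -/
def res (p : P) : SpecialLinearGroup (Fin 2) (EE κ p → ℝ) →*
    SpecialLinearGroup (Fin 2) (SS κ p → ℝ) := SpecialLinearGroup.map (rho1 κ p)

variable (κ) in
/-- restriction to the component `p` -/
def pr (p : P) : SpecialLinearGroup (Fin 2) (As κ) →*
    SpecialLinearGroup (Fin 2) (SS κ p → ℝ) :=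
  SpecialLinearGroup.map (Pi.evalRingHom (fun p => SS κ p → ℝ) p)

variable (κ) in
/-- evaluation at a point -/
def ev (p : P) (x : EE κ p) : SpecialLinearGroup (Fin 2) (EE κ p → ℝ) →*
    SpecialLinearGroup (Fin 2) ℝ := SpecialLinearGroup.map (Pi.evalRingHom _ x)

theorem res_apply (p : P) (g : SpecialLinearGroup (Fin 2) (EE κ p → ℝ)) (i j : Fin 2) :
    (res κ p g) i j = rho1 κ p (g i j) := rfl

theorem pr_apply (p : P) (g : SpecialLinearGroup (Fin 2) (As κ)) (i j : Fin 2) :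
    (pr κ p g) i j = g i j p := rfl

theorem ev_apply (p : P) (x : EE κ p) (g : SpecialLinearGroup (Fin 2) (EE κ p → ℝ))
    (i j : Fin 2) : (ev κ p x g) i j = g i j x := rfl

theorem pr_E12 (p : P) (f : As κ) : pr κ p (E12 f) = E12 (f p) := by
  refine sl_ext ?_ ?_ ?_ ?_ <;> simp [pr_apply]

theorem pr_E21 (p : P) (f : As κ) : pr κ p (E21 f) = E21 (f p) := by
  refine sl_ext ?_ ?_ ?_ ?_ <;> simp [pr_apply]

theorem res_E12 (p : P) (f : EE κ p → ℝ) : res κ p (E12 f) = E12 (rho1 κ p f) := by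
  refine sl_ext ?_ ?_ ?_ ?_ <;> simp [res_apply]

theorem res_E21 (p : P) (f : EE κ p → ℝ) : res κ p (E21 f) = E21 (rho1 κ p f) := by
  refine sl_ext ?_ ?_ ?_ ?_ <;> simp [res_apply]

theorem lift_mem (hκ : ∀ p, 0 < κ p) (p : P) {g : SpecialLinearGroup (Fin 2) (As κ)}
    (hg : g ∈ Gr (LL κ)) : ∃ g' ∈ Smo κ p, res κ p g' = pr κ p g := by
  induction hg using Subgroup.closure_induction with
  | mem g hg =>
    have hcd : ∀ i : Idx κ, ∀ x ∈ closedBall (0 : EE κ p) 1, ContDiffAt ℝ 1 (lam κ i p) x :=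
      fun i x hx => cd_lam hx i
    have hcdi : ∀ i : Idx κ, ∀ x ∈ closedBall (0 : EE κ p) 1,
        ContDiffAt ℝ 1 ((lam κ i)⁻¹ p) x :=
      fun i x hx => (cd_lam hx i).inv (lam_ne hκ hx i)
    rcases hg with hg | hg
    · simp only [Set.mem_iUnion] at hg
      obtain ⟨q, ⟨i, rfl⟩, hg⟩ := hg
      rcases hg with rfl | rfl | rfl | rfl
      · exact ⟨E12 (lam κ i p), E12_Smo (hcd i), by rw [res_E12, pr_E12]; rfl⟩
      · exact ⟨E12 ((lam κ i)⁻¹ p), E12_Smo (hcdi i), by rw [res_E12, pr_E12]; rfl⟩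
      · exact ⟨E21 (lam κ i p), E21_Smo (hcd i), by rw [res_E21, pr_E21]; rfl⟩
      · exact ⟨E21 ((lam κ i)⁻¹ p), E21_Smo (hcdi i), by rw [res_E21, pr_E21]; rfl⟩
    · rcases hg with rfl | rfl
      · exact ⟨E12 1, E12_Smo (fun x _ => contDiffAt_const), by rw [res_E12, pr_E12]; rfl⟩
      · exact ⟨E21 1, E21_Smo (fun x _ => contDiffAt_const), by rw [res_E21, pr_E21]; rfl⟩
  | one => exact ⟨1, (Smo κ p).one_mem, by rw [map_one, map_one]⟩
  | mul a b _ _ iha ihb =>
    obtain ⟨a', h1, h1'⟩ := iha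
    obtain ⟨b', h2, h2'⟩ := ihb
    exact ⟨a' * b', (Smo κ p).mul_mem h1 h2, by rw [map_mul, map_mul, h1', h2']⟩
  | inv a _ iha =>
    obtain ⟨a', h1, h1'⟩ := iha
    exact ⟨a'⁻¹, (Smo κ p).inv_mem h1, by rw [map_inv, map_inv, h1']⟩

/-- the invariant: the tuple extends to the ball of the component `p` without being central at
a point -/
def Ext (p : P) {k : ℕ} (U : Fin k → Gr (LL κ)) : Prop :=
  ∃ T : Fin k → SpecialLinearGroup (Fin 2) (EE κ p → ℝ), (∀ l, T l ∈ Smo κ p) ∧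
    (∀ l, res κ p (T l) = pr κ p (U l).1) ∧
    ∀ x ∈ closedBall (0 : EE κ p) 1, ∃ l,
      ev κ p x (T l) ∉ Subgroup.center (SpecialLinearGroup (Fin 2) ℝ)

/-- moves lift along `res` -/
theorem lift_move (hκ : ∀ p, 0 < κ p) (p : P) {k : ℕ} {U V : Fin k → Gr (LL κ)}
    (h : ACMove U V) (T : Fin k → SpecialLinearGroup (Fin 2) (EE κ p → ℝ))
    (hT : ∀ l, T l ∈ Smo κ p) (hTU : ∀ l, res κ p (T l) = pr κ p (U l).1) :
    ∃ T' : Fin k → SpecialLinearGroup (Fin 2) (EE κ p → ℝ), ACMove T T' ∧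
      (∀ l, T' l ∈ Smo κ p) ∧ ∀ l, res κ p (T' l) = pr κ p (V l).1 := by
  have key : ∀ (i : Fin k) (y : SpecialLinearGroup (Fin 2) (EE κ p → ℝ)) (z : Gr (LL κ)),
      y ∈ Smo κ p → res κ p y = pr κ p z.1 → (∀ l, Function.update T i y l ∈ Smo κ p) ∧
      ∀ l, res κ p (Function.update T i y l) = pr κ p (Function.update U i z l).1 := by
    intro i y z hy hyz
    constructor
    · intro l
      by_cases hl : l = i
      · subst hl; simpa using hy
      · rw [Function.update_of_ne hl]; exact hT l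
    · intro l
      by_cases hl : l = i
      · subst hl; simpa using hyz
      · rw [Function.update_of_ne hl, Function.update_of_ne hl]; exact hTU l
  have S := Smo κ p
  rcases h with ⟨i, j, hij, h⟩ | ⟨i, rfl⟩ | ⟨i, w, rfl⟩
  · rcases h with rfl | rfl | rfl | rfl
    · have := key i (T i * T j) (U i * U j) ((Smo κ p).mul_mem (hT i) (hT j))
        (by rw [map_mul, hTU, hTU, ← map_mul]; rfl)
      exact ⟨_, Or.inl ⟨i, j, hij, Or.inl rfl⟩, this.1, this.2⟩
    · have := key i (T i * (T j)⁻¹) (U i * (U j)⁻¹)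
        ((Smo κ p).mul_mem (hT i) ((Smo κ p).inv_mem (hT j)))
        (by rw [map_mul, map_inv, hTU, hTU, ← map_inv, ← map_mul]; rfl)
      exact ⟨_, Or.inl ⟨i, j, hij, Or.inr (Or.inl rfl)⟩, this.1, this.2⟩
    · have := key i (T j * T i) (U j * U i) ((Smo κ p).mul_mem (hT j) (hT i))
        (by rw [map_mul, hTU, hTU, ← map_mul]; rfl)
      exact ⟨_, Or.inl ⟨i, j, hij, Or.inr (Or.inr (Or.inl rfl))⟩, this.1, this.2⟩
    · have := key i ((T j)⁻¹ * T i) ((U j)⁻¹ * U i)
        ((Smo κ p).mul_mem ((Smo κ p).inv_mem (hT j)) (hT i))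
        (by rw [map_mul, map_inv, hTU, hTU, ← map_inv, ← map_mul]; rfl)
      exact ⟨_, Or.inl ⟨i, j, hij, Or.inr (Or.inr (Or.inr rfl))⟩, this.1, this.2⟩
  · have := key i (T i)⁻¹ (U i)⁻¹ ((Smo κ p).inv_mem (hT i))
      (by rw [map_inv, hTU, ← map_inv]; rfl)
    exact ⟨_, Or.inr (Or.inl ⟨i, rfl⟩), this.1, this.2⟩
  · obtain ⟨w', hw, hw'⟩ := lift_mem hκ p w.2
    have := key i (w'⁻¹ * T i * w') (w⁻¹ * U i * w)
      ((Smo κ p).mul_mem ((Smo κ p).mul_mem ((Smo κ p).inv_mem hw) (hT i)) hw)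
      (by rw [map_mul, map_mul, map_inv, hTU, hw', ← map_inv, ← map_mul, ← map_mul]; rfl)
    exact ⟨_, Or.inr (Or.inr ⟨i, w', rfl⟩), this.1, this.2⟩

theorem ext_move (hκ : ∀ p, 0 < κ p) (p : P) {k : ℕ} {U V : Fin k → Gr (LL κ)}
    (h : ACMove U V) (hU : Ext p U) : Ext p V := by
  obtain ⟨T, h1, h2, h3⟩ := hU
  obtain ⟨T', h4, h5, h6⟩ := lift_move hκ p h T h1 h2
  refine ⟨T', h5, h6, ?_⟩
  intro x hx
  by_contra hcon
  push Not at hcon
  obtain ⟨l, hl⟩ := h3 x hx
  exact hl (move_mem (map_move (ev κ p x) h4) _ hcon l)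

theorem ext_equiv (hκ : ∀ p, 0 < κ p) (p : P) {k : ℕ} {U V : Fin k → Gr (LL κ)}
    (h : ACEquiv U V) (hU : Ext p U) : Ext p V := by
  induction h with
  | refl => exact hU
  | tail _ hs ih => exact ext_move hκ p hs ih

/-- the tuple attached to the component `p` -/
def Vp (hκ : ∀ p, 0 < κ p) (p : P) : Fin (κ p) → Gr (LL κ) := fun s => ⟨uu κ p s, uu_mem hκ p s⟩

theorem E12_one_not_center : (E12 (1 : ℝ)) ∉ Subgroup.center (SpecialLinearGroup (Fin 2) ℝ) := by
  rw [Matrix.SpecialLinearGroup.mem_center_iff]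
  rintro ⟨r, _, hr⟩
  have h1 := congrFun (congrFun hr 0) 1
  have h2 : (E12 (1 : ℝ)) 0 1 = 1 := rfl
  change (scalar (Fin 2) r) 0 1 = (E12 (1 : ℝ)) 0 1 at h1
  rw [h2] at h1
  simp at h1

/-- The tuple of `p` extends over the balls of the other components. -/
theorem ext_other (hκ : ∀ p, 0 < κ p) {p p' : P} (h : p' ≠ p) : Ext p' (Vp hκ p) := by
  refine ⟨fun s => if s.val = 0 then E12 1 else 1, ?_, ?_, ?_⟩
  · intro l
    dsimp only
    split_ifs
    · exact E12_Smo (fun x _ => contDiffAt_const)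
    · exact (Smo κ p').one_mem
  · intro l
    have hc : ∀ j (x : SS κ p'), rho κ (co κ p l j) p' x = 0 := fun j x => co_ne κ h l j x.1
    have h00 : (pr κ p' (uu κ p l)) 0 0 = 1 := by
      rw [pr_apply, uu_00]
      funext x
      rw [rho_apply]
      unfold e00
      rw [co_ne κ h]
      norm_num
    have h01 : (pr κ p' (uu κ p l)) 0 1 = if l.val = 0 then 1 else 0 := by
      rw [pr_apply, uu_01]
      funext x
      rw [rho_apply]
      unfold e01 e00 bb
      rw [co_ne κ h, co_ne κ h, idem_ne κ h]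
      split_ifs <;> norm_num
    have h10 : (pr κ p' (uu κ p l)) 1 0 = 0 := by
      rw [pr_apply, uu_10]
      funext x
      rw [rho_apply]
      unfold e10
      rw [co_ne κ h]
      norm_num
    have h11 : (pr κ p' (uu κ p l)) 1 1 = 1 := by
      rw [pr_apply, uu_11]
      funext x
      rw [rho_apply]
      unfold e11 e00
      rw [co_ne κ h, co_ne κ h]
      norm_num
    change res κ p' (if l.val = 0 then E12 1 else 1) = pr κ p' (uu κ p l)
    by_cases hl : l.val = 0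
    · rw [if_pos hl, res_E12]
      rw [if_pos hl] at h01
      refine sl_ext ?_ ?_ ?_ ?_
      · rw [h00]; rfl
      · rw [h01]; rfl
      · rw [h10]; rfl
      · rw [h11]; rfl
    · rw [if_neg hl, map_one]
      rw [if_neg hl] at h01
      refine sl_ext ?_ ?_ ?_ ?_
      · rw [h00]; simp
      · rw [h01]; simp
      · rw [h10]; simp
      · rw [h11]; simp
  · intro x _
    refine ⟨⟨0, hκ p⟩, ?_⟩
    have h1 : (if (⟨0, hκ p⟩ : Fin (κ p)).val = 0 then E12 (1 : EE κ p' → ℝ) else 1) = E12 1 :=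
      if_pos rfl
    dsimp only
    rw [if_pos rfl]
    have h2 : ev κ p' x (E12 (1 : EE κ p' → ℝ)) = E12 1 := by
      refine sl_ext ?_ ?_ ?_ ?_ <;> rfl
    rw [h2]
    exact E12_one_not_center

/-- traceless parts -/
def Fm (p : P) (T : Fin (κ p) → SpecialLinearGroup (Fin 2) (EE κ p → ℝ)) (x : EE κ p) :
    EE κ p :=
  WithLp.toLp 2 fun i : Fin (κ p) × Fin 3 =>
    ![T i.1 0 0 x - T i.1 1 1 x, T i.1 0 1 x, T i.1 1 0 x] i.2

theorem Fm_zero (p : P) (T : Fin (κ p) → SpecialLinearGroup (Fin 2) (EE κ p → ℝ)) (x : EE κ p)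
    (s : Fin (κ p)) : Fm p T x (s, 0) = T s 0 0 x - T s 1 1 x := rfl
theorem Fm_one (p : P) (T : Fin (κ p) → SpecialLinearGroup (Fin 2) (EE κ p → ℝ)) (x : EE κ p)
    (s : Fin (κ p)) : Fm p T x (s, 1) = T s 0 1 x := rfl
theorem Fm_two (p : P) (T : Fin (κ p) → SpecialLinearGroup (Fin 2) (EE κ p → ℝ)) (x : EE κ p)
    (s : Fin (κ p)) : Fm p T x (s, 2) = T s 1 0 x := rfl

theorem not_ext (hκ : ∀ p, 0 < κ p) (p : P) : ¬ Ext p (Vp hκ p) := by
  rintro ⟨T, hT, hres, hne⟩
  have hent : ∀ (s : Fin (κ p)) (i j : Fin 2) (x : SS κ p), T s i j x.1 = uu κ p s i j p x := by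
    intro s i j x
    have h1 : res κ p (T s) = pr κ p (uu κ p s) := hres s
    have h2 : (res κ p (T s)) i j x = (pr κ p (uu κ p s)) i j x := by rw [h1]
    exact h2
  haveI : Nonempty (Fin (κ p) × Fin 3) := ⟨(⟨0, hκ p⟩, 0)⟩
  haveI : Nontrivial (EE κ p) := by
    refine ⟨⟨0, EuclideanSpace.single (⟨0, hκ p⟩, 0) 1, ?_⟩⟩
    intro h0
    have h1 := congrArg (fun v : EE κ p => v (⟨0, hκ p⟩, 0)) h0
    simp at h1
  refine Pool.Agent.Helper667.NoRetract.no_outward (Fm p T) ?_ ?_ ?_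
  · intro x hx
    rw [contDiffAt_piLp]
    rintro ⟨s, j⟩
    fin_cases j
    · exact (hT s x hx 0 0).sub (hT s x hx 1 1)
    · exact hT s x hx 0 1
    · exact hT s x hx 1 0
  · intro x hx h0
    obtain ⟨l, hl⟩ := hne x hx
    apply hl
    have hc : ∀ i, Fm p T x i = 0 := fun i => by rw [h0]; rfl
    have k0 := hc (l, 0)
    have k1 := hc (l, 1)
    have k2 := hc (l, 2)
    rw [Fm_zero] at k0
    rw [Fm_one] at k1
    rw [Fm_two] at k2
    have hz : T l 0 0 x = T l 1 1 x ∧ T l 0 1 x = 0 ∧ T l 1 0 x = 0 :=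
      ⟨sub_eq_zero.mp k0, k1, k2⟩
    rw [Matrix.SpecialLinearGroup.mem_center_iff]
    refine ⟨T l 0 0 x, ?_, ?_⟩
    · have hd := det_eq (ev κ p x (T l))
      simp only [ev_apply] at hd
      rw [hz.2.1, zero_mul, sub_zero, ← hz.1] at hd
      simp only [Fintype.card_fin]
      rw [sq]; exact hd
    · ext i j
      fin_cases i <;> fin_cases j
      · simp [ev_apply]
      · simp [ev_apply, hz.2.1]
      · simp [ev_apply, hz.2.2]
      · simp [ev_apply, hz.1]
  · intro x hx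
    have hxB : x ∈ closedBall (0 : EE κ p) 1 := by rw [mem_closedBall_zero_iff]; exact hx.le
    have hin : ⟪x, Fm p T x⟫ = ∑ s, (x (s, 0) * (T s 0 0 x - T s 1 1 x) +
        x (s, 1) * T s 0 1 x + x (s, 2) * T s 1 0 x) := by
      rw [PiLp.inner_apply, Fintype.sum_prod_type]
      refine Finset.sum_congr rfl (fun s _ => ?_)
      rw [Fin.sum_univ_three, Fm_zero, Fm_one, Fm_two]
      simp [mul_comm]
    rw [hin]
    have hnorm := norm_sq_eq x
    rw [hx] at hnorm
    have hle : ∑ s, (x (s, 0) ^ 2 + x (s, 1) ^ 2 + x (s, 2) ^ 2) / 4 ≤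
        ∑ s, (x (s, 0) * (T s 0 0 x - T s 1 1 x) +
        x (s, 1) * T s 0 1 x + x (s, 2) * T s 1 0 x) := by
      refine Finset.sum_le_sum fun s _ => ?_
      have b0 := value_bound (coord_le hxB (s, 0)) (coord_le hxB (s, 1)) (coord_le hxB (s, 2))
      have g := fun i j => hent s i j ⟨x, hx⟩
      have hbb : bb κ p s p x = x (s, 1) := by
        unfold bb
        rw [co_self, idem_self]
        simp
      rw [g 0 0, g 1 1, g 0 1, g 1 0, uu_00, uu_01, uu_10, uu_11]
      simp only [rho_apply, e01, e10, e11]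
      rw [hbb]
      simp only [e00, co_self]
      exact b0
    rw [← Finset.sum_div, ← hnorm] at hle
    linarith

theorem normGen_of {k : ℕ} (U : Fin k → Gr (LL κ))
    (h : ∀ H : Subgroup (SpecialLinearGroup (Fin 2) (As κ)),
      (∀ g ∈ Gr (LL κ), ∀ h ∈ H, g * h * g⁻¹ ∈ H) → (∀ l, (U l).1 ∈ H) → Gr (LL κ) ≤ H) :
    NormGen U := by
  unfold NormGen
  set N := Subgroup.normalClosure (Set.range U) with hN
  have h1 := h (N.map (Gr (LL κ)).subtype) ?_ ?_
  · rw [eq_top_iff]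
    intro x _
    obtain ⟨y, hy, hyx⟩ := h1 x.2
    have : y = x := Subtype.ext hyx
    rwa [← this]
  · rintro g hg _ ⟨y, hy, rfl⟩
    refine ⟨⟨g, hg⟩ * y * ⟨g, hg⟩⁻¹, ?_, by rw [map_mul, map_mul, map_inv]; rfl⟩
    exact Subgroup.Normal.conj_mem Subgroup.normalClosure_normal y hy ⟨g, hg⟩
  · intro l
    exact ⟨U l, Subgroup.subset_normalClosure ⟨l, rfl⟩, rfl⟩

theorem normGen_Vp (hκ : ∀ p, 0 < κ p) (p : P) : NormGen (Vp hκ p) :=
  normGen_of _ (fun H hn hU => le_of_uu hκ p H hn hU)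

theorem normGen_one (hκ : ∀ p, 0 < κ p) :
    NormGen (fun _ : Fin 1 => (⟨E12 1, E12_one_mem⟩ : Gr (LL κ))) :=
  normGen_of _ (fun H hn hU => le_of_one (LL_inv hκ) (LL_R0 hκ) H hn (hU 0))

theorem dG_one (hκ : ∀ p, 0 < κ p) : dG (Gr (LL κ)) = 1 := by
  unfold dG
  apply le_antisymm
  · exact Nat.sInf_le ⟨le_rfl, _, normGen_one hκ⟩
  · have hne : {k : ℕ | 1 ≤ k ∧ ∃ g : Fin k → Gr (LL κ), NormGen g}.Nonempty :=
      ⟨1, le_rfl, _, normGen_one hκ⟩
    exact (Nat.sInf_mem hne).1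

/-- the group is perfect -/
theorem perfect (hκ : ∀ p, 0 < κ p) : commutator (Gr (LL κ)) = ⊤ := by
  have h := le_of_one (LL_inv hκ) (LL_R0 hκ)
    ((commutator (Gr (LL κ))).map (Gr (LL κ)).subtype) ?_ ?_
  · rw [eq_top_iff]
    intro x _
    obtain ⟨y, hy, hyx⟩ := h x.2
    have : y = x := Subtype.ext hyx
    rwa [← this]
  · rintro g hg _ ⟨y, hy, rfl⟩
    refine ⟨⟨g, hg⟩ * y * ⟨g, hg⟩⁻¹, ?_, by rw [map_mul, map_mul, map_inv]; rfl⟩
    exact Subgroup.Normal.conj_mem inferInstance y hy ⟨g, hg⟩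
  · -- E12 1 is a commutator
    have hp : ((rho κ (lam κ (Sum.inl 0)), rho κ (lam κ (Sum.inl 0))⁻¹) : As κ × As κ) ∈ LL κ :=
      ⟨_, rfl⟩
    have hD := D_fst_mem hp (LL_inv hκ _ hp)
    have hE := E12_mem (LL_inv hκ) (third_mem hκ)
    have hc := Subgroup.commutator_mem_commutator
      (Subgroup.mem_top (⟨_, hD⟩ : Gr (LL κ))) (Subgroup.mem_top (⟨_, hE⟩ : Gr (LL κ)))
    rw [← commutator_def] at hc
    refine ⟨_, hc, ?_⟩
    rw [commutatorElement_def, map_mul, map_mul, map_mul, map_inv, map_inv]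
    change D _ _ (LL_inv hκ _ hp) * E12 (rho κ (fun _ _ => (1 / 3 : ℝ))) *
      (D _ _ (LL_inv hκ _ hp))⁻¹ * (E12 (rho κ (fun _ _ => (1 / 3 : ℝ))))⁻¹ = E12 1
    rw [conj_D, ← E12_neg, ← E12_add]
    congr 1
    funext p t
    simp [lam]
    norm_num

theorem fg [Finite P] : Group.FG (Gr (LL κ)) := by
  rw [Group.fg_iff_subgroup_fg]
  exact (Subgroup.fg_iff _).mpr ⟨gens (LL κ), rfl, gens_finite (LL_finite κ)⟩

theorem countable_Gr [Countable P] : Countable (Gr (LL κ)) := by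
  have h1 : (gens (LL κ)).Countable := by
    unfold gens
    refine Set.Countable.union ((LL_countable κ).biUnion fun p _ => ?_) ?_
    · exact (Set.toFinite _).countable
    · exact (Set.toFinite _).countable
  haveI : Countable (gens (LL κ)) := h1.to_subtype
  haveI : Countable (FreeGroup (gens (LL κ))) := by
    unfold FreeGroup
    infer_instance
  have h2 : Gr (LL κ) = (FreeGroup.lift (fun g : gens (LL κ) => g.1)).range := by
    rw [FreeGroup.range_lift_eq_closure]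
    rw [Subtype.range_coe]
    rfl
  rw [h2]
  exact (FreeGroup.lift (fun g : gens (LL κ) => g.1)).rangeRestrict_surjective.countable

theorem ab_sub (hκ : ∀ p, 0 < κ p) (a b : Abelianization (Gr (LL κ))) : a = b := by
  obtain ⟨a, rfl⟩ := QuotientGroup.mk'_surjective _ a
  obtain ⟨b, rfl⟩ := QuotientGroup.mk'_surjective _ b
  refine QuotientGroup.eq.mpr ?_
  rw [perfect hκ]
  exact Subgroup.mem_top _

theorem ab_equiv (hκ : ∀ p, 0 < κ p) {k : ℕ} (U V : Fin k → Gr (LL κ)) :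
    ACEquiv (fun i => Abelianization.of (U i)) (fun i => Abelianization.of (V i)) := by
  have : (fun i => Abelianization.of (U i)) = fun i => Abelianization.of (V i) := by
    funext i; exact ab_sub hκ _ _
  rw [this]
  exact Relation.ReflTransGen.refl

end

end Pool.Agent.Y208.AC
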