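import Pool.Agent.Y208.AC.Fin
import Pool.Agent.Y208.AC.Stm

/-!
# The generalised Andrews-Curtis property fails in all ranks
-/

set_option autoImplicit false
set_option linter.unusedSimpArgs false
set_option linter.unusedSectionVars false
set_option linter.unusedVariables false

namespace Pool.Agent.Y208.AC

open Pool.Agent.Helper667.ElemGroup
open Pool.Agent.Results.MP_71c9ee_al.GenACFails (NormGen dG ACMove ACEquiv)

theorem classes_restrict {G : Type} [Group G] {ι ι' : Type} {k : ℕ} {V : ι → Fin k → G}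
    (h : Classes V) (e : ι' → ι) (he : Function.Injective e) : Classes (fun i => V (e i)) :=
  ⟨fun i => h.1 _, fun i j => h.2.1 _ _, fun i j hij => h.2.2.1 _ _ fun h' => hij (he h'),
    fun i => h.2.2.2 _⟩

theorem main (rf : S_RF) :
    (∀ K N : ℕ, ∃ (G : Type) (_ : Group G), Group.FG G ∧ ResFin G ∧ commutator G = ⊤ ∧
      dG G = 1 ∧ ∀ k, 2 ≤ k → k ≤ K →
        FailsAt G k ∧ ∃ V : Fin N → (Fin k → G), Classes V) ∧
    ∃ (G : Type) (_ : Group G), Countable G ∧ commutator G = ⊤ ∧ dG G = 1 ∧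
      ∀ k, 2 ≤ k → FailsAt G k ∧ ∃ V : ℕ → (Fin k → G), Classes V := by
  constructor
  · intro K N
    let f : Fin K × Fin (N + 1) → ℕ × Fin (N + 1) := fun p => (p.1.val, p.2)
    have hκ := kk_pos f
    refine ⟨Gr (LL fun p => kk (f p)), inferInstance, fg, ?_, perfect hκ, dG_one hκ, ?_⟩
    · intro g hg
      exact rf _ (LL_finite _) g hg
    · intro k hk1 hk2
      obtain ⟨m, rfl⟩ : ∃ m, k = m + 2 := ⟨k - 2, by omega⟩
      obtain ⟨h1, V, h2⟩ := rank f m (fun c => (⟨m, by omega⟩, c))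
        (fun a b hab => (Prod.mk.inj hab).2) (fun c => rfl) 0
      exact ⟨h1, _, classes_restrict h2 Fin.castSucc (Fin.castSucc_injective N)⟩
  · let f : ℕ × ℕ → ℕ × ℕ := id
    have hκ := kk_pos f
    refine ⟨Gr (LL fun p => kk (f p)), inferInstance, countable_Gr, perfect hκ, dG_one hκ, ?_⟩
    intro k hk1
    obtain ⟨m, rfl⟩ : ∃ m, k = m + 2 := ⟨k - 2, by omega⟩
    exact rank f m (fun c => (m, c)) (fun a b hab => (Prod.mk.inj hab).2) (fun c => rfl) 0

end Pool.Agent.Y208.AC
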