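import Pool.Agent.Y208.AC.Inv

/-!
# Tuples with a trivial entry extend to the ball
-/

set_option autoImplicit false
set_option linter.unusedSimpArgs false
set_option linter.unusedSectionVars false
set_option linter.unusedVariables false
set_option linter.style.haveILetI false

namespace Pool.Agent.Y208.AC

open Matrix Metric Pool.Agent.Helper667.SLTwo Pool.Agent.Helper667.ElemGroup
open Pool.Agent.Results.MP_71c9ee_al.GenACFails (NormGen dG ACMove ACEquiv move_mem map_move
  value_bound)

noncomputable section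

section general

variable {G : Type*} [Group G] {k : ℕ}

theorem move_symm {a b : Fin k → G} (h : ACMove a b) : ACMove b a := by
  have key : ∀ (i : Fin k) (y z : G), z = a i → a = Function.update (Function.update a i y) i z := by
    intro i y z hz
    rw [Function.update_idem, hz, Function.update_eq_self]
  rcases h with ⟨i, j, hij, h⟩ | ⟨i, rfl⟩ | ⟨i, w, rfl⟩
  · refine Or.inl ⟨i, j, hij, ?_⟩
    rcases h with rfl | rfl | rfl | rfl
    · refine Or.inr (Or.inl (key i _ _ ?_))
      rw [Function.update_self, Function.update_of_ne hij]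
      group
    · refine Or.inl (key i _ _ ?_)
      rw [Function.update_self, Function.update_of_ne hij]
      group
    · refine Or.inr (Or.inr (Or.inr (key i _ _ ?_)))
      rw [Function.update_self, Function.update_of_ne hij]
      group
    · refine Or.inr (Or.inr (Or.inl (key i _ _ ?_)))
      rw [Function.update_self, Function.update_of_ne hij]
      group
  · refine Or.inr (Or.inl ⟨i, key i _ _ ?_⟩)
    rw [Function.update_self, inv_inv]
  · refine Or.inr (Or.inr ⟨i, w⁻¹, key i _ _ ?_⟩)
    rw [Function.update_self]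
    group

theorem equiv_symm {a b : Fin k → G} (h : ACEquiv a b) : ACEquiv b a := by
  induction h with
  | refl => exact Relation.ReflTransGen.refl
  | tail _ hs ih => exact Relation.ReflTransGen.head (move_symm hs) ih

theorem normGen_move {a b : Fin k → G} (h : ACMove a b) (ha : NormGen a) : NormGen b := by
  unfold NormGen at ha ⊢
  rw [eq_top_iff, ← ha]
  refine Subgroup.normalClosure_le_normal ?_
  rintro _ ⟨l, rfl⟩
  exact move_mem h (Subgroup.normalClosure (Set.range b))
    (fun l => Subgroup.subset_normalClosure ⟨l, rfl⟩) l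

theorem normGen_equiv {a b : Fin k → G} (h : ACEquiv a b) (ha : NormGen a) : NormGen b := by
  induction h with
  | refl => exact ha
  | tail _ hs ih => exact normGen_move hs ih

end general

variable {P : Type} [DecidableEq P] {κ : P → ℕ}

variable (κ) in
/-- evaluation at a point of the sphere -/
def evS (p : P) (x : SS κ p) : SpecialLinearGroup (Fin 2) (SS κ p → ℝ) →*
    SpecialLinearGroup (Fin 2) ℝ := SpecialLinearGroup.map (Pi.evalRingHom _ x)

theorem ev_res (p : P) (x : SS κ p) (T : SpecialLinearGroup (Fin 2) (EE κ p → ℝ)) :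
    ev κ p x.1 T = evS κ p x (res κ p T) := rfl

theorem E12_not_center {r : ℝ} (hr : r ≠ 0) :
    (E12 r) ∉ Subgroup.center (SpecialLinearGroup (Fin 2) ℝ) := by
  rw [Matrix.SpecialLinearGroup.mem_center_iff]
  rintro ⟨s, _, hs⟩
  have h1 := congrFun (congrFun hs 0) 1
  change (scalar (Fin 2) s) 0 1 = r at h1
  simp at h1
  exact hr h1.symm

theorem noncentral (hκ : ∀ p, 0 < κ p) (p : P) {k : ℕ} (U : Fin k → Gr (LL κ)) (hU : NormGen U)
    (x : SS κ p) : ∃ l, evS κ p x (pr κ p (U l).1) ∉
      Subgroup.center (SpecialLinearGroup (Fin 2) ℝ) := by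
  by_contra hcon
  push Not at hcon
  set f : Gr (LL κ) →* SpecialLinearGroup (Fin 2) ℝ :=
    (evS κ p x).comp ((pr κ p).comp (Gr (LL κ)).subtype) with hf
  have h1 : Subgroup.normalClosure (Set.range U) ≤
      (Subgroup.center (SpecialLinearGroup (Fin 2) ℝ)).comap f := by
    refine Subgroup.normalClosure_le_normal ?_
    rintro _ ⟨l, rfl⟩
    exact hcon l
  unfold NormGen at hU
  rw [hU] at h1
  have h2 : f ⟨E12 1, E12_one_mem⟩ ∈ Subgroup.center (SpecialLinearGroup (Fin 2) ℝ) :=
    h1 (Subgroup.mem_top _)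
  have h3 : f ⟨E12 1, E12_one_mem⟩ = E12 1 := by
    refine sl_ext ?_ ?_ ?_ ?_ <;> rfl
  rw [h3] at h2
  exact E12_one_not_center h2

theorem ext_of_one (hκ : ∀ p, 0 < κ p) (p : P) {k : ℕ} (U : Fin k → Gr (LL κ)) (hU : NormGen U)
    (l₀ : Fin k) (h1 : U l₀ = 1) : Ext p U := by
  classical
  choose T hT hTU using fun l => lift_mem hκ p (U l).2
  refine ⟨Function.update T l₀ (E12 fun x => 1 - ‖x‖ ^ 2), ?_, ?_, ?_⟩
  · intro l
    by_cases hl : l = l₀
    · subst hl
      rw [Function.update_self]
      exact E12_Smo fun x _ => contDiffAt_const.sub (contDiff_norm_sq ℝ).contDiffAt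
    · rw [Function.update_of_ne hl]
      exact hT l
  · intro l
    by_cases hl : l = l₀
    · subst hl
      rw [Function.update_self, res_E12, h1]
      have h2 : rho1 κ p (fun x => 1 - ‖x‖ ^ 2) = 0 := by
        funext s
        change 1 - ‖s.1‖ ^ 2 = 0
        rw [s.2]
        norm_num
      rw [h2, E12_zero]
      exact (map_one _).symm
    · rw [Function.update_of_ne hl]
      exact hTU l
  · intro x hx
    by_cases hx1 : ‖x‖ = 1
    · obtain ⟨l, hl⟩ := noncentral hκ p U hU ⟨x, hx1⟩
      have hne : l ≠ l₀ := by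
        rintro rfl
        rw [h1] at hl
        apply hl
        have h2 : evS κ p ⟨x, hx1⟩ (pr κ p ((1 : Gr (LL κ)) : SpecialLinearGroup (Fin 2) (As κ)))
            = 1 := by
          rw [Subgroup.coe_one, map_one, map_one]
        rw [h2]
        exact Subgroup.one_mem _
      refine ⟨l, ?_⟩
      rw [Function.update_of_ne hne]
      have h2 : ev κ p x (T l) = evS κ p ⟨x, hx1⟩ (pr κ p (U l).1) := by
        rw [← hTU l]
        rfl
      rw [h2]
      exact hl
    · rw [mem_closedBall_zero_iff] at hx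
      have h2 : ‖x‖ < 1 := lt_of_le_of_ne hx hx1
      have h3 : 1 - ‖x‖ ^ 2 ≠ 0 := by nlinarith [norm_nonneg x]
      refine ⟨l₀, ?_⟩
      rw [Function.update_self]
      have h4 : ev κ p x (E12 fun x => 1 - ‖x‖ ^ 2) = E12 (1 - ‖x‖ ^ 2) := by
        refine sl_ext ?_ ?_ ?_ ?_ <;> rfl
      rw [h4]
      exact E12_not_center h3

/-- The tuple of `p` is not equivalent to a tuple with a trivial entry. -/
theorem Vp_ne_one (hκ : ∀ p, 0 < κ p) (p : P) (U : Fin (κ p) → Gr (LL κ))
    (h : ACEquiv (Vp hκ p) U) (l : Fin (κ p)) : U l ≠ 1 := by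
  intro hl
  have h1 := ext_of_one hκ p U (normGen_equiv h (normGen_Vp hκ p)) l hl
  exact not_ext hκ p (ext_equiv hκ p (equiv_symm h) h1)

/-- the simple tuple -/
def Us (κ : P → ℕ) (m : ℕ) : Fin (m + 2) → Gr (LL κ) :=
  fun l => if l = 0 then ⟨E12 1, E12_one_mem⟩ else 1

theorem normGen_Us (hκ : ∀ p, 0 < κ p) (m : ℕ) : NormGen (Us κ m) :=
  normGen_of _ (fun H hn hU => le_of_one (LL_inv hκ) (LL_R0 hκ) H hn (hU 0))

theorem Us_one (m : ℕ) : Us κ m 1 = 1 := by
  unfold Us
  rw [if_neg]
  intro h
  have := congrArg Fin.val h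
  simp at this

end

end Pool.Agent.Y208.AC
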