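import Pool.Agent.Helper667.ElemGroup
import Pool.Agent.Helper667.NoRetract

/-!
# Groups of elementary matrices over rings of functions on disjoint unions of spheres
-/

set_option autoImplicit false
set_option linter.unusedSimpArgs false
set_option linter.unusedSectionVars false
set_option linter.unusedVariables false

namespace Pool.Agent.Y208.AC

open Matrix Metric Pool.Agent.Helper667.SLTwo Pool.Agent.Helper667.ElemGroup

noncomputable section

variable {P : Type} [DecidableEq P] (κ : P → ℕ)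

/-- the Euclidean space of the component `p` -/
abbrev EE (p : P) := EuclideanSpace ℝ (Fin (κ p) × Fin 3)
/-- the unit sphere -/
abbrev SS (p : P) := {x : EE κ p // ‖x‖ = 1}
abbrev Ah := ∀ p, EE κ p → ℝ
abbrev As := ∀ p, SS κ p → ℝ

/-- restriction of functions to the spheres -/
def rho : Ah κ →+* As κ where
  toFun f p s := f p s.1
  map_one' := rfl
  map_zero' := rfl
  map_add' _ _ := rfl
  map_mul' _ _ := rfl

@[simp] theorem rho_apply (f : Ah κ) (p : P) (s : SS κ p) : rho κ f p s = f p s.1 := rfl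

/-- the idempotent of a component -/
def idem (p : P) : Ah κ := Pi.single p (fun _ => 1)

/-- coordinate functions -/
def co (p : P) (s : Fin (κ p)) (j : Fin 3) : Ah κ := Pi.single p (fun x => x (s, j))

theorem idem_self (p : P) (x : EE κ p) : idem κ p p x = 1 := by
  unfold idem; rw [Pi.single_eq_same]

theorem idem_ne {p p' : P} (h : p' ≠ p) (x : EE κ p') : idem κ p p' x = 0 := by
  unfold idem; rw [Pi.single_eq_of_ne h]; rfl

theorem co_self (p : P) (s : Fin (κ p)) (j : Fin 3) (x : EE κ p) : co κ p s j p x = x (s, j) := by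
  unfold co; rw [Pi.single_eq_same]

theorem co_ne {p p' : P} (h : p' ≠ p) (s : Fin (κ p)) (j : Fin 3) (x : EE κ p') :
    co κ p s j p' x = 0 := by
  unfold co; rw [Pi.single_eq_of_ne h]; rfl

/-- the upper coefficient -/
def bb (p : P) (s : Fin (κ p)) : Ah κ := fun p' x =>
  co κ p s 1 p' x + if s.val = 0 then 1 - idem κ p p' x else 0

def e00 (p : P) (s : Fin (κ p)) : Ah κ := fun p' x => (2 + co κ p s 0 p' x) / 2
def e01 (p : P) (s : Fin (κ p)) : Ah κ := fun p' x => e00 κ p s p' x * bb κ p s p' x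
def e10 (p : P) (s : Fin (κ p)) : Ah κ := fun p' x => co κ p s 2 p' x * e00 κ p s p' x
def e11 (p : P) (s : Fin (κ p)) : Ah κ := fun p' x =>
  co κ p s 2 p' x * e00 κ p s p' x * bb κ p s p' x + (e00 κ p s p' x)⁻¹

def qq (p : P) (s : Fin (κ p)) (j : Fin 3) : Ah κ :=
  ![e10 κ p s, fun p' x => -e01 κ p s p' x,
    fun p' x => e10 κ p s p' x + e00 κ p s p' x - e11 κ p s p' x - e01 κ p s p' x] j

def kap (p : P) (s : Fin (κ p)) (j : Fin 3) : Ah κ := fun p' x => 1 + qq κ p s j p' x ^ 2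
def ff (p : P) (s : Fin (κ p)) (j : Fin 3) : Ah κ := fun p' x => 1 - ((kap κ p s j p' x)⁻¹) ^ 4
def sig (p : P) : Ah κ := fun p' x => (∑ s, ∑ j, ff κ p s j p' x) + (1 - ‖x‖ ^ 2) ^ 2

/-- index type for the units -/
abbrev Idx := Fin 2 ⊕ (((Σ p : P, Fin (κ p) × Fin 3) ⊕ (Σ p : P, Fin (κ p) × Fin 3)) ⊕
  ((Σ p : P, Fin (κ p) × Fin 3) ⊕ (P ⊕ P)))

/-- the list of units -/
def lam : Idx κ → Ah κ
  | Sum.inl i => fun _ _ => (i : ℝ) + 2
  | Sum.inr (Sum.inl (Sum.inl i)) => fun p' x => 2 + co κ i.1 i.2.1 i.2.2 p' x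
  | Sum.inr (Sum.inl (Sum.inr i)) => fun p' x => 3 + co κ i.1 i.2.1 i.2.2 p' x
  | Sum.inr (Sum.inr (Sum.inl i)) => kap κ i.1 i.2.1 i.2.2
  | Sum.inr (Sum.inr (Sum.inr (Sum.inl p))) => sig κ p
  | Sum.inr (Sum.inr (Sum.inr (Sum.inr p))) => fun p' x => 1 + idem κ p p' x

variable {κ}

theorem coord_le {p : P} {x : EE κ p} (hx : x ∈ closedBall (0 : EE κ p) 1)
    (i : Fin (κ p) × Fin 3) : |x i| ≤ 1 := by
  rw [mem_closedBall_zero_iff] at hx
  exact (PiLp.norm_apply_le x i).trans hx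

theorem co_le {p' : P} {x : EE κ p'} (hx : x ∈ closedBall (0 : EE κ p') 1) (p : P)
    (s : Fin (κ p)) (j : Fin 3) : |co κ p s j p' x| ≤ 1 := by
  by_cases h : p' = p
  · subst h
    rw [co_self]; exact coord_le hx _
  · rw [co_ne κ h, abs_zero]; exact zero_le_one

theorem co_le' {p' : P} {x : EE κ p'} (hx : x ∈ closedBall (0 : EE κ p') 1) (p : P)
    (s : Fin (κ p)) (j : Fin 3) : -1 ≤ co κ p s j p' x ∧ co κ p s j p' x ≤ 1 :=
  abs_le.mp (co_le hx p s j)

theorem e00_pos {p' : P} {x : EE κ p'} (hx : x ∈ closedBall (0 : EE κ p') 1) (p : P)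
    (s : Fin (κ p)) : 0 < e00 κ p s p' x := by
  have := co_le' hx p s 0
  unfold e00
  linarith [this.1]

theorem kap_ge (p : P) (s : Fin (κ p)) (j : Fin 3) (p' : P) (x : EE κ p') :
    1 ≤ kap κ p s j p' x := by
  unfold kap; nlinarith [sq_nonneg (qq κ p s j p' x)]

theorem ff_nonneg (p : P) (s : Fin (κ p)) (j : Fin 3) (p' : P) (x : EE κ p') :
    0 ≤ ff κ p s j p' x := by
  unfold ff
  have h1 := kap_ge p s j p' x
  have h2 : (kap κ p s j p' x)⁻¹ ≤ 1 := inv_le_one_of_one_le₀ h1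
  have h3 : 0 ≤ (kap κ p s j p' x)⁻¹ := by positivity
  have := pow_le_one₀ h3 h2 (n := 4)
  linarith

theorem ff_pos (p : P) (s : Fin (κ p)) (j : Fin 3) (p' : P) (x : EE κ p')
    (h : qq κ p s j p' x ≠ 0) : 0 < ff κ p s j p' x := by
  unfold ff
  have h1 : 1 < kap κ p s j p' x := by
    unfold kap
    have : 0 < qq κ p s j p' x ^ 2 := by positivity
    linarith
  have h2 : (kap κ p s j p' x)⁻¹ < 1 := inv_lt_one_of_one_lt₀ h1
  have h3 : 0 ≤ (kap κ p s j p' x)⁻¹ := by positivity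
  have := pow_lt_one₀ h3 h2 (n := 4) (by norm_num)
  linarith

theorem norm_sq_eq {p : P} (x : EE κ p) : ‖x‖ ^ 2 =
    ∑ s, (x (s, 0) ^ 2 + x (s, 1) ^ 2 + x (s, 2) ^ 2) := by
  rw [EuclideanSpace.norm_sq_eq, Fintype.sum_prod_type]
  refine Finset.sum_congr rfl fun s _ => ?_
  simp only [Fin.sum_univ_succ, Real.norm_eq_abs, sq_abs]
  simp
  ring

theorem qq_zero {p : P} {x : EE κ p} (hx : x ∈ closedBall (0 : EE κ p) 1) (s : Fin (κ p))
    (h : ∀ j, qq κ p s j p x = 0) : x (s, 0) = 0 ∧ x (s, 1) = 0 ∧ x (s, 2) = 0 := by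
  have hα := e00_pos hx p s
  have h0 := h 0
  have h1 := h 1
  have h2 := h 2
  simp only [qq, Matrix.cons_val_zero, Matrix.cons_val_one, Matrix.cons_val] at h0 h1 h2
  have hbb : bb κ p s p x = x (s, 1) := by
    unfold bb
    rw [co_self, idem_self]
    simp
  have hc : x (s, 2) = 0 := by
    unfold e10 at h0
    rw [co_self] at h0
    rcases mul_eq_zero.mp h0 with h | h
    · exact h
    · exact absurd h hα.ne'
  have hb : x (s, 1) = 0 := by
    unfold e01 at h1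
    rw [neg_eq_zero, hbb] at h1
    rcases mul_eq_zero.mp h1 with h | h
    · exact absurd h hα.ne'
    · exact h
  refine ⟨?_, hb, hc⟩
  unfold e10 e11 e01 at h2
  rw [hbb, co_self, hb, hc] at h2
  simp only [zero_mul, mul_zero, zero_add, sub_zero] at h2
  have h3 : e00 κ p s p x * e00 κ p s p x = 1 := by
    have : e00 κ p s p x = (e00 κ p s p x)⁻¹ := by linarith
    calc e00 κ p s p x * e00 κ p s p x = e00 κ p s p x * (e00 κ p s p x)⁻¹ := by rw [← this]
      _ = 1 := mul_inv_cancel₀ hα.ne'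
  have h4 : e00 κ p s p x = 1 := by nlinarith
  unfold e00 at h4
  rw [co_self] at h4
  linarith

theorem qq_one {p p' : P} (h : p' ≠ p) (x : EE κ p') (s : Fin (κ p)) (hs : s.val = 0) :
    qq κ p s 1 p' x ≠ 0 := by
  simp only [qq, Matrix.cons_val_one, Matrix.cons_val_zero]
  unfold e01 e00 bb
  rw [co_ne κ h, co_ne κ h, idem_ne κ h, if_pos hs]
  norm_num

theorem sig_pos (hκ : ∀ p, 0 < κ p) {p' : P} {x : EE κ p'} (hx : x ∈ closedBall (0 : EE κ p') 1)
    (p : P) : 0 < sig κ p p' x := by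
  unfold sig
  have hsum : 0 ≤ ∑ s, ∑ j, ff κ p s j p' x :=
    Finset.sum_nonneg (fun s _ => Finset.sum_nonneg (fun j _ => ff_nonneg p s j p' x))
  by_cases h1 : ‖x‖ = 1
  · have : 0 < ∑ s, ∑ j, ff κ p s j p' x := by
      by_contra hcon
      have h0 : ∑ s, ∑ j, ff κ p s j p' x = 0 := le_antisymm (not_lt.mp hcon) hsum
      rw [Finset.sum_eq_zero_iff_of_nonneg
        (fun s _ => Finset.sum_nonneg (fun j _ => ff_nonneg p s j p' x))] at h0
      have hq : ∀ s j, qq κ p s j p' x = 0 := by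
        intro s j
        have h2 := h0 s (Finset.mem_univ s)
        rw [Finset.sum_eq_zero_iff_of_nonneg (fun j _ => ff_nonneg p s j p' x)] at h2
        by_contra h3
        exact (ff_pos p s j p' x h3).ne' (h2 j (Finset.mem_univ j))
      by_cases hp : p' = p
      · subst hp
        have hn := norm_sq_eq x
        rw [h1] at hn
        have : ∑ s : Fin (κ p'), (x (s, 0) ^ 2 + x (s, 1) ^ 2 + x (s, 2) ^ 2) = 0 := by
          refine Finset.sum_eq_zero fun s _ => ?_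
          have a0 := qq_zero hx s (hq s)
          rw [a0.1, a0.2.1, a0.2.2]
          norm_num
        rw [this] at hn
        norm_num at hn
      · exact qq_one hp x ⟨0, hκ p⟩ rfl (hq _ 1)
    positivity
  · rw [mem_closedBall_zero_iff] at hx
    have h2 : ‖x‖ < 1 := lt_of_le_of_ne hx h1
    have h3 : 0 < 1 - ‖x‖ ^ 2 := by nlinarith [norm_nonneg x]
    positivity

theorem lam_ne (hκ : ∀ p, 0 < κ p) {p' : P} {x : EE κ p'}
    (hx : x ∈ closedBall (0 : EE κ p') 1) (i : Idx κ) : lam κ i p' x ≠ 0 := by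
  rcases i with i | (i | i) | i | p | p
  · simp only [lam]
    positivity
  · simp only [lam]
    have := (co_le' hx i.1 i.2.1 i.2.2).1
    linarith
  · simp only [lam]
    have := (co_le' hx i.1 i.2.1 i.2.2).1
    linarith
  · exact (zero_lt_one.trans_le (kap_ge _ _ _ _ x)).ne'
  · exact (sig_pos hκ hx p).ne'
  · simp only [lam]
    by_cases h : p' = p
    · subst h
      rw [idem_self]
      norm_num
    · rw [idem_ne κ h]
      norm_num

theorem cd_co (p : P) (s : Fin (κ p)) (j : Fin 3) (p' : P) (x : EE κ p') :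
    ContDiffAt ℝ 1 (co κ p s j p') x := by
  by_cases h : p' = p
  · subst h
    unfold co
    rw [Pi.single_eq_same]
    fun_prop
  · unfold co
    rw [Pi.single_eq_of_ne h]
    exact contDiffAt_const

theorem cd_idem (p : P) (p' : P) (x : EE κ p') : ContDiffAt ℝ 1 (idem κ p p') x := by
  by_cases h : p' = p
  · subst h
    unfold idem
    rw [Pi.single_eq_same]
    exact contDiffAt_const
  · unfold idem
    rw [Pi.single_eq_of_ne h]
    exact contDiffAt_const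

theorem cd_bb (p : P) (s : Fin (κ p)) (p' : P) (x : EE κ p') :
    ContDiffAt ℝ 1 (bb κ p s p') x := by
  unfold bb
  refine (cd_co p s 1 p' x).add ?_
  split_ifs
  · exact contDiffAt_const.sub (cd_idem p p' x)
  · exact contDiffAt_const

theorem cd_e00 (p : P) (s : Fin (κ p)) (p' : P) (x : EE κ p') :
    ContDiffAt ℝ 1 (e00 κ p s p') x :=
  (contDiffAt_const.add (cd_co p s 0 p' x)).div_const 2

theorem cd_e01 (p : P) (s : Fin (κ p)) (p' : P) (x : EE κ p') :
    ContDiffAt ℝ 1 (e01 κ p s p') x :=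
  (cd_e00 p s p' x).mul (cd_bb p s p' x)

theorem cd_e10 (p : P) (s : Fin (κ p)) (p' : P) (x : EE κ p') :
    ContDiffAt ℝ 1 (e10 κ p s p') x :=
  (cd_co p s 2 p' x).mul (cd_e00 p s p' x)

theorem cd_e11 (p : P) (s : Fin (κ p)) {p' : P} {x : EE κ p'}
    (hx : x ∈ closedBall (0 : EE κ p') 1) : ContDiffAt ℝ 1 (e11 κ p s p') x :=
  (((cd_co p s 2 p' x).mul (cd_e00 p s p' x)).mul (cd_bb p s p' x)).add
    ((cd_e00 p s p' x).inv (e00_pos hx p s).ne')

theorem cd_qq (p : P) (s : Fin (κ p)) (j : Fin 3) {p' : P} {x : EE κ p'}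
    (hx : x ∈ closedBall (0 : EE κ p') 1) : ContDiffAt ℝ 1 (qq κ p s j p') x := by
  fin_cases j
  · exact cd_e10 p s p' x
  · exact (cd_e01 p s p' x).neg
  · exact (((cd_e10 p s p' x).add (cd_e00 p s p' x)).sub (cd_e11 p s hx)).sub (cd_e01 p s p' x)

theorem cd_kap (p : P) (s : Fin (κ p)) (j : Fin 3) {p' : P} {x : EE κ p'}
    (hx : x ∈ closedBall (0 : EE κ p') 1) : ContDiffAt ℝ 1 (kap κ p s j p') x :=
  contDiffAt_const.add ((cd_qq p s j hx).pow 2)

theorem cd_ff (p : P) (s : Fin (κ p)) (j : Fin 3) {p' : P} {x : EE κ p'}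
    (hx : x ∈ closedBall (0 : EE κ p') 1) : ContDiffAt ℝ 1 (ff κ p s j p') x :=
  contDiffAt_const.sub
    (((cd_kap p s j hx).inv (zero_lt_one.trans_le (kap_ge _ _ _ _ x)).ne').pow 4)

theorem cd_sig (p : P) {p' : P} {x : EE κ p'} (hx : x ∈ closedBall (0 : EE κ p') 1) :
    ContDiffAt ℝ 1 (sig κ p p') x := by
  unfold sig
  refine ContDiffAt.add ?_ ?_
  · exact ContDiffAt.sum (fun s _ => ContDiffAt.sum (fun j _ => cd_ff p s j hx))
  · exact (contDiffAt_const.sub (contDiff_norm_sq ℝ).contDiffAt).pow 2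

theorem cd_lam {p' : P} {x : EE κ p'} (hx : x ∈ closedBall (0 : EE κ p') 1) (i : Idx κ) :
    ContDiffAt ℝ 1 (lam κ i p') x := by
  rcases i with i | (i | i) | i | p | p
  · exact contDiffAt_const
  · exact contDiffAt_const.add (cd_co _ _ _ p' x)
  · exact contDiffAt_const.add (cd_co _ _ _ p' x)
  · exact cd_kap _ _ _ hx
  · exact cd_sig _ hx
  · exact contDiffAt_const.add (cd_idem _ p' x)

variable (κ)

/-- the set of pairs of units on the spheres -/
def LL : Set (As κ × As κ) := Set.range (fun i : Idx κ => (rho κ (lam κ i), rho κ (lam κ i)⁻¹))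

theorem LL_finite [Finite P] : (LL κ).Finite := by
  have : Finite (Idx κ) := inferInstance
  exact Set.finite_range _

theorem LL_countable [Countable P] : (LL κ).Countable := by
  have : Countable (Idx κ) := inferInstance
  exact Set.countable_range _

variable {κ}

theorem mem_ball_of_sphere {p : P} (s : SS κ p) : s.1 ∈ closedBall (0 : EE κ p) 1 := by
  rw [mem_closedBall_zero_iff]; exact s.2.le

theorem LL_inv (hκ : ∀ p, 0 < κ p) : ∀ q ∈ LL κ, q.1 * q.2 = 1 := by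
  rintro _ ⟨i, rfl⟩
  funext p s
  simp only [Pi.mul_apply, rho_apply, Pi.inv_apply, Pi.one_apply]
  exact mul_inv_cancel₀ (lam_ne hκ (mem_ball_of_sphere s) i)

theorem sq_mem (i : Idx κ) : rho κ (lam κ i) ^ 2 ∈ R0 (LL κ) :=
  Subring.subset_closure ⟨_, ⟨i, rfl⟩, Or.inl rfl⟩

theorem inv_sq_mem (i : Idx κ) : rho κ (lam κ i)⁻¹ ^ 2 ∈ R0 (LL κ) :=
  Subring.subset_closure ⟨_, ⟨i, rfl⟩, Or.inr rfl⟩

theorem inv_mem_of (hκ : ∀ p, 0 < κ p) (i : Idx κ) (h : rho κ (lam κ i) ∈ R0 (LL κ)) :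
    rho κ (lam κ i)⁻¹ ∈ R0 (LL κ) := by
  have e : rho κ (lam κ i)⁻¹ = rho κ (lam κ i) * rho κ (lam κ i)⁻¹ ^ 2 := by
    funext p s
    simp only [Pi.mul_apply, rho_apply, Pi.inv_apply, Pi.pow_apply]
    have := lam_ne hκ (mem_ball_of_sphere s) i
    field_simp
  rw [e]
  exact (R0 (LL κ)).mul_mem h (inv_sq_mem i)

theorem nat_mem (n : ℕ) : rho κ (fun _ _ => (n : ℝ)) ∈ R0 (LL κ) := by
  have : rho κ (fun _ _ => (n : ℝ)) = (n : As κ) := by
    funext p s; simp
  rw [this]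
  exact natCast_mem _ n

theorem half_mem (hκ : ∀ p, 0 < κ p) : rho κ (fun _ _ => (1 / 2 : ℝ)) ∈ R0 (LL κ) := by
  have h := inv_mem_of hκ (Sum.inl 0) (by
    have := nat_mem (κ := κ) 2
    convert this using 2
    funext p x
    simp [lam])
  convert h using 2
  funext p x
  simp [lam]

theorem third_mem (hκ : ∀ p, 0 < κ p) : rho κ (fun _ _ => (1 / 3 : ℝ)) ∈ R0 (LL κ) := by
  have h := inv_mem_of hκ (Sum.inl 1) (by
    have := nat_mem (κ := κ) 3
    convert this using 2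
    funext p x
    simp [lam]
    norm_num)
  convert h using 2
  funext p x
  simp [lam]
  norm_num

theorem co_mem (hκ : ∀ p, 0 < κ p) (p : P) (s : Fin (κ p)) (j : Fin 3) :
    rho κ (co κ p s j) ∈ R0 (LL κ) := by
  have e : rho κ (co κ p s j) =
      (rho κ (lam κ (Sum.inr (Sum.inl (Sum.inr ⟨p, s, j⟩)))) ^ 2 -
      rho κ (lam κ (Sum.inr (Sum.inl (Sum.inl ⟨p, s, j⟩)))) ^ 2 -
      rho κ (fun _ _ => ((5 : ℕ) : ℝ))) * rho κ (fun _ _ => (1 / 2 : ℝ)) := by
    funext p' t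
    simp only [Pi.mul_apply, Pi.sub_apply, rho_apply, Pi.pow_apply, lam]
    push_cast
    ring
  rw [e]
  exact (R0 _).mul_mem ((R0 _).sub_mem ((R0 _).sub_mem (sq_mem _) (sq_mem _)) (nat_mem 5))
    (half_mem hκ)

theorem idem_mem (hκ : ∀ p, 0 < κ p) (p : P) : rho κ (idem κ p) ∈ R0 (LL κ) := by
  have e : rho κ (idem κ p) =
      (rho κ (lam κ (Sum.inr (Sum.inr (Sum.inr (Sum.inr p))))) ^ 2 - 1) *
      rho κ (fun _ _ => (1 / 3 : ℝ)) := by
    funext p' t
    simp only [Pi.mul_apply, Pi.sub_apply, rho_apply, Pi.pow_apply, lam, Pi.one_apply]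
    by_cases h : p' = p
    · subst h
      rw [idem_self]
      norm_num
    · rw [idem_ne κ h]
      norm_num
  rw [e]
  exact (R0 _).mul_mem ((R0 _).sub_mem (sq_mem _) (R0 _).one_mem) (third_mem hκ)

theorem bb_mem (hκ : ∀ p, 0 < κ p) (p : P) (s : Fin (κ p)) :
    rho κ (bb κ p s) ∈ R0 (LL κ) := by
  by_cases hs : s.val = 0
  · have e : rho κ (bb κ p s) = rho κ (co κ p s 1) + (1 - rho κ (idem κ p)) := by
      funext p' t
      simp [bb, hs]
    rw [e]
    exact (R0 _).add_mem (co_mem hκ p s 1) ((R0 _).sub_mem (R0 _).one_mem (idem_mem hκ p))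
  · have e : rho κ (bb κ p s) = rho κ (co κ p s 1) := by
      funext p' t
      simp [bb, hs]
    rw [e]
    exact co_mem hκ p s 1

theorem e00_mem (hκ : ∀ p, 0 < κ p) (p : P) (s : Fin (κ p)) :
    rho κ (e00 κ p s) ∈ R0 (LL κ) := by
  have e : rho κ (e00 κ p s) = (rho κ (fun _ _ => ((2 : ℕ) : ℝ)) + rho κ (co κ p s 0)) *
      rho κ (fun _ _ => (1 / 2 : ℝ)) := by
    funext p' t
    simp only [Pi.mul_apply, Pi.add_apply, rho_apply, e00]
    push_cast
    ring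
  rw [e]
  exact (R0 _).mul_mem ((R0 _).add_mem (nat_mem 2) (co_mem hκ p s 0)) (half_mem hκ)

theorem e00_inv_mem (hκ : ∀ p, 0 < κ p) (p : P) (s : Fin (κ p)) :
    rho κ (e00 κ p s)⁻¹ ∈ R0 (LL κ) := by
  have h1 : rho κ (lam κ (Sum.inr (Sum.inl (Sum.inl ⟨p, s, 0⟩)))) ∈ R0 (LL κ) := by
    have : rho κ (lam κ (Sum.inr (Sum.inl (Sum.inl ⟨p, s, 0⟩)))) =
        rho κ (fun _ _ => ((2 : ℕ) : ℝ)) + rho κ (co κ p s 0) := by
      funext p' t
      simp only [Pi.add_apply, rho_apply, lam]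
      push_cast
      ring
    rw [this]
    exact (R0 _).add_mem (nat_mem 2) (co_mem hκ p s 0)
  have e : rho κ (e00 κ p s)⁻¹ = rho κ (fun _ _ => ((2 : ℕ) : ℝ)) *
      rho κ (lam κ (Sum.inr (Sum.inl (Sum.inl ⟨p, s, 0⟩))))⁻¹ := by
    funext p' t
    simp only [Pi.mul_apply, rho_apply, Pi.inv_apply, e00, lam]
    push_cast
    rw [inv_div]
    ring
  rw [e]
  exact (R0 _).mul_mem (nat_mem 2) (inv_mem_of hκ _ h1)

theorem e01_mem (hκ : ∀ p, 0 < κ p) (p : P) (s : Fin (κ p)) : rho κ (e01 κ p s) ∈ R0 (LL κ) :=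
  (R0 _).mul_mem (e00_mem hκ p s) (bb_mem hκ p s)
theorem e10_mem (hκ : ∀ p, 0 < κ p) (p : P) (s : Fin (κ p)) : rho κ (e10 κ p s) ∈ R0 (LL κ) :=
  (R0 _).mul_mem (co_mem hκ p s 2) (e00_mem hκ p s)
theorem e11_mem (hκ : ∀ p, 0 < κ p) (p : P) (s : Fin (κ p)) : rho κ (e11 κ p s) ∈ R0 (LL κ) :=
  (R0 _).add_mem ((R0 _).mul_mem ((R0 _).mul_mem (co_mem hκ p s 2) (e00_mem hκ p s))
    (bb_mem hκ p s)) (e00_inv_mem hκ p s)

theorem qq_mem (hκ : ∀ p, 0 < κ p) (p : P) (s : Fin (κ p)) (j : Fin 3) :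
    rho κ (qq κ p s j) ∈ R0 (LL κ) := by
  fin_cases j
  · exact e10_mem hκ p s
  · exact (R0 _).neg_mem (e01_mem hκ p s)
  · exact (R0 _).sub_mem ((R0 _).sub_mem ((R0 _).add_mem (e10_mem hκ p s) (e00_mem hκ p s))
      (e11_mem hκ p s)) (e01_mem hκ p s)

theorem kap_mem (hκ : ∀ p, 0 < κ p) (p : P) (s : Fin (κ p)) (j : Fin 3) :
    rho κ (kap κ p s j) ∈ R0 (LL κ) :=
  (R0 _).add_mem (R0 _).one_mem ((R0 _).pow_mem (qq_mem hκ p s j) 2)

theorem ff_mem (hκ : ∀ p, 0 < κ p) (p : P) (s : Fin (κ p)) (j : Fin 3) :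
    rho κ (ff κ p s j) ∈ R0 (LL κ) :=
  (R0 _).sub_mem (R0 _).one_mem ((R0 _).pow_mem
    (inv_mem_of hκ (Sum.inr (Sum.inr (Sum.inl ⟨p, s, j⟩))) (kap_mem hκ p s j)) 4)

theorem rho_sig (p : P) : rho κ (sig κ p) = ∑ s, ∑ j, rho κ (ff κ p s j) := by
  funext p' t
  simp [sig, t.2, Finset.sum_apply]

theorem sig_mem (hκ : ∀ p, 0 < κ p) (p : P) : rho κ (sig κ p) ∈ R0 (LL κ) := by
  rw [rho_sig]
  exact (R0 _).sum_mem (fun s _ => (R0 _).sum_mem (fun j _ => ff_mem hκ p s j))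

theorem LL_R0 (hκ : ∀ p, 0 < κ p) : ∀ q ∈ LL κ, q.1 ∈ R0 (LL κ) := by
  rintro _ ⟨i, rfl⟩
  rcases i with i | (i | i) | i | p | p
  · have := nat_mem (κ := κ) (i.1 + 2)
    convert this using 2
    funext p x
    simp [lam]
  · have : rho κ (lam κ (Sum.inr (Sum.inl (Sum.inl i)))) =
        rho κ (fun _ _ => ((2 : ℕ) : ℝ)) + rho κ (co κ i.1 i.2.1 i.2.2) := by
      funext p' t
      simp only [Pi.add_apply, rho_apply, lam]
      push_cast
      ring
    change rho κ (lam κ (Sum.inr (Sum.inl (Sum.inl i)))) ∈ _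
    rw [this]
    exact (R0 _).add_mem (nat_mem 2) (co_mem hκ _ _ _)
  · have : rho κ (lam κ (Sum.inr (Sum.inl (Sum.inr i)))) =
        rho κ (fun _ _ => ((3 : ℕ) : ℝ)) + rho κ (co κ i.1 i.2.1 i.2.2) := by
      funext p' t
      simp only [Pi.add_apply, rho_apply, lam]
      push_cast
      ring
    change rho κ (lam κ (Sum.inr (Sum.inl (Sum.inr i)))) ∈ _
    rw [this]
    exact (R0 _).add_mem (nat_mem 3) (co_mem hκ _ _ _)
  · exact kap_mem hκ _ _ _
  · exact sig_mem hκ p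
  · have : rho κ (lam κ (Sum.inr (Sum.inr (Sum.inr (Sum.inr p))))) =
        1 + rho κ (idem κ p) := by
      funext p' t
      simp [lam]
    change rho κ (lam κ (Sum.inr (Sum.inr (Sum.inr (Sum.inr p))))) ∈ _
    rw [this]
    exact (R0 _).add_mem (R0 _).one_mem (idem_mem hκ p)

theorem e00_mul_inv (p : P) (s : Fin (κ p)) :
    rho κ (e00 κ p s) * rho κ (e00 κ p s)⁻¹ = 1 := by
  funext p' t
  simp only [Pi.mul_apply, rho_apply, Pi.inv_apply, Pi.one_apply]
  exact mul_inv_cancel₀ (e00_pos (mem_ball_of_sphere t) p s).ne'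

variable (κ)

/-- The special elements -/
def uu (p : P) (s : Fin (κ p)) : SpecialLinearGroup (Fin 2) (As κ) :=
  E21 (rho κ (co κ p s 2)) * D _ _ (e00_mul_inv p s) * E12 (rho κ (bb κ p s))

variable {κ}

theorem uu_00 (p : P) (s : Fin (κ p)) : uu κ p s 0 0 = rho κ (e00 κ p s) := by
  simp [uu, mul_00, mul_01, mul_10, mul_11, -SpecialLinearGroup.coe_mul]
theorem uu_01 (p : P) (s : Fin (κ p)) : uu κ p s 0 1 = rho κ (e01 κ p s) := by
  simp only [uu, mul_00, mul_01, mul_10, mul_11, E21_00, E21_01, E21_10, E21_11, D_00, D_01,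
    D_10, D_11, E12_00, E12_01, E12_10, E12_11]
  funext p' t
  simp [e01]
theorem uu_10 (p : P) (s : Fin (κ p)) : uu κ p s 1 0 = rho κ (e10 κ p s) := by
  simp only [uu, mul_00, mul_01, mul_10, mul_11, E21_00, E21_01, E21_10, E21_11, D_00, D_01,
    D_10, D_11, E12_00, E12_01, E12_10, E12_11]
  funext p' t
  simp [e10]
theorem uu_11 (p : P) (s : Fin (κ p)) : uu κ p s 1 1 = rho κ (e11 κ p s) := by
  simp only [uu, mul_00, mul_01, mul_10, mul_11, E21_00, E21_01, E21_10, E21_11, D_00, D_01,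
    D_10, D_11, E12_00, E12_01, E12_10, E12_11]
  funext p' t
  simp [e11]

theorem uu_entries (hκ : ∀ p, 0 < κ p) (p : P) (s : Fin (κ p)) :
    ∀ i j, uu κ p s i j ∈ R0 (LL κ) := by
  intro i j
  fin_cases i <;> fin_cases j
  · change uu κ p s 0 0 ∈ _; rw [uu_00]; exact e00_mem hκ p s
  · change uu κ p s 0 1 ∈ _; rw [uu_01]; exact e01_mem hκ p s
  · change uu κ p s 1 0 ∈ _; rw [uu_10]; exact e10_mem hκ p s
  · change uu κ p s 1 1 ∈ _; rw [uu_11]; exact e11_mem hκ p s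

theorem q_uu (p : P) (s : Fin (κ p)) (j : Fin 3) : q (uu κ p s) j = rho κ (qq κ p s j) := by
  fin_cases j
  · exact uu_10 p s
  · change -uu κ p s 0 1 = _
    rw [uu_01]; rfl
  · change uu κ p s 1 0 + uu κ p s 0 0 - uu κ p s 1 1 - uu κ p s 0 1 = _
    rw [uu_00, uu_01, uu_10, uu_11]; rfl

theorem uu_mem (hκ : ∀ p, 0 < κ p) (p : P) (s : Fin (κ p)) : uu κ p s ∈ Gr (LL κ) := by
  unfold uu
  refine (Gr _).mul_mem ((Gr _).mul_mem (E21_mem (LL_inv hκ) (co_mem hκ p s 2)) ?_)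
    (E12_mem (LL_inv hκ) (bb_mem hκ p s))
  rw [D_eq, E21_neg, E12_neg]
  exact (Gr _).mul_mem ((Gr _).mul_mem ((Gr _).mul_mem ((Gr _).mul_mem ((Gr _).mul_mem
    (E12_mem (LL_inv hκ) (e00_mem hκ p s)) ((Gr _).inv_mem (E21_mem (LL_inv hκ)
    (e00_inv_mem hκ p s)))) (E12_mem (LL_inv hκ) (e00_mem hκ p s)))
    ((Gr _).inv_mem E12_one_mem)) E21_one_mem) ((Gr _).inv_mem E12_one_mem)

theorem E12_sum_mem (H : Subgroup (SpecialLinearGroup (Fin 2) (As κ))) {ι : Type*} (t : Finset ι)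
    (f : ι → As κ) (hf : ∀ i ∈ t, E12 (f i) ∈ H) : E12 (∑ i ∈ t, f i) ∈ H := by
  classical
  induction t using Finset.induction_on with
  | empty => rw [Finset.sum_empty, E12_zero]; exact H.one_mem
  | insert a t ha ih =>
    rw [Finset.sum_insert ha, E12_add]
    exact H.mul_mem (hf _ (Finset.mem_insert_self _ _))
      (ih (fun i hi => hf i (Finset.mem_insert_of_mem hi)))

/-- a subgroup normalised by the group and containing the special elements of one component is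
everything -/
theorem le_of_uu (hκ : ∀ p, 0 < κ p) (p : P) (H : Subgroup (SpecialLinearGroup (Fin 2) (As κ)))
    (hn : ∀ g ∈ Gr (LL κ), ∀ h ∈ H, g * h * g⁻¹ ∈ H) (hu : ∀ s, uu κ p s ∈ H) :
    Gr (LL κ) ≤ H := by
  refine le_of_one (LL_inv hκ) (LL_R0 hκ) H hn ?_
  have h1 : ∀ s j, E12 (rho κ (ff κ p s j)) ∈ H := by
    intro s j
    refine extract_q (LL_inv hκ) (LL_R0 hκ) H hn (uu κ p s) (hu s) (uu_entries hκ p s) j
      (rho κ (kap κ p s j)⁻¹) ?_
    refine ⟨Sum.inr (Sum.inr (Sum.inl ⟨p, s, j⟩)), ?_⟩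
    rw [q_uu]
    rfl
  have h2 : E12 (rho κ (sig κ p)) ∈ H := by
    rw [rho_sig]
    exact E12_sum_mem H _ _ (fun s _ => E12_sum_mem H _ _ (fun j _ => h1 s j))
  have h3 := mul_of_R0 (LL_inv hκ) H hn
    (inv_mem_of hκ (Sum.inr (Sum.inr (Sum.inr (Sum.inl p)))) (sig_mem hκ p)) h2
  have h4 : rho κ (lam κ (Sum.inr (Sum.inr (Sum.inr (Sum.inl p)))))⁻¹ * rho κ (sig κ p) = 1 := by
    rw [mul_comm]
    exact LL_inv hκ _ ⟨Sum.inr (Sum.inr (Sum.inr (Sum.inl p))), rfl⟩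
  rwa [h4] at h3

end

end Pool.Agent.Y208.AC
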